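import Pool.Agent.Helper26.HW.Stmts
import Pool.Agent.Helper76.HV.SUMZ

/-! # Row SUMZ0 (MP_56acfd_mp): sum over the dyadic scales, any number of nuclei -/

set_option autoImplicit false

namespace Pool.Agent.Helper76.HW

open MeasureTheory Filter Pool.Agent.Helper95.PW Pool.Agent.Helper95.LN Pool.Agent.Helper95.CF
  Pool.Agent.Helper95.HV Pool.Agent.Helper26.HW Pool.Agent.Helper76.HV.SUMZ76

/-- row SUMZ0 -/
theorem SUMZ0 (hPSZ : ST_PSZ) (hPIZ : ST_PIZ) (hPRZ : ST_PRZ0) (hFLD : ST_FLD) : ST_SUMZ0 := by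
  intro d hd hd1
  obtain ⟨C1, hC1, hP⟩ := hPSZ d hd hd1
  obtain ⟨C2, hC2, hI⟩ := hPIZ d hd hd1
  obtain ⟨C3, hC3, hR⟩ := hPRZ d hd hd1
  obtain ⟨K, hK, hF⟩ := hFLD
  set c : ℝ := d / 8 with hc
  have hc0 : 0 < c := by positivity
  have hc1 : c ≤ 1 := by rw [hc]; linarith
  set q : ℝ := (2 : ℝ) ^ (-(1 / 5) : ℝ) with hq
  have hq0 : 0 < q := by rw [hq]; positivity
  have hq1 : q < 1 := by
    rw [hq]
    exact Real.rpow_lt_one_of_one_lt_of_neg (by norm_num) (by norm_num)
  set A1 : ℝ := Real.sqrt (Real.sqrt (C1 * (6 / c ^ 5))) with hA1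
  set A2 : ℝ := Real.sqrt (Real.sqrt (C2 * (8 / c ^ 4))) with hA2
  set A3 : ℝ := Real.sqrt (Real.sqrt (C3 * 2)) with hA3
  set D : ℝ := A3 + (A1 * (c ^ (-(1 / 5) : ℝ) * (1 / (1 - q))) + A2) with hD
  have hq2 : 0 < 1 - q := by linarith
  have hA1' : 0 < A1 := by positivity
  have hA2' : 0 < A2 := by positivity
  have hA3' : 0 < A3 := by positivity
  have hD0 : 0 < D := by positivity
  refine ⟨3 * D ^ 2, by positivity, ?_⟩
  intro z E n M X Z φ G hdat hM1 hE hG
  have hz := hdat.z1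
  have hz0 : 0 < z := by linarith
  have hM : (0 : ℝ) ≤ M := Nat.cast_nonneg M
  -- the radii
  set r : ℕ → ℝ := fun i => c / 2 ^ i with hr
  have hr0 : ∀ i, 0 < r i := fun i => by
    simp only [hr]
    positivity
  have hrle : ∀ i, r i ≤ c := fun i => by
    simp only [hr]
    exact div_le_self hc0.le (one_le_pow₀ (by norm_num))
  have hrd : ∀ i, r i ≤ d / 4 := fun i => (hrle i).trans (by rw [hc]; linarith)
  have hr2 : ∀ i, 2 * r (i + 1) = r i := fun i => by
    simp only [hr]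
    rw [pow_succ]
    field_simp
  have hanti : ∀ i j, i ≤ j → r j ≤ r i := by
    intro i j hij
    simp only [hr]
    apply div_le_div_of_nonneg_left hc0.le (by positivity)
    exact pow_le_pow_right₀ (by norm_num) hij
  obtain ⟨I, hI1, hI2⟩ : ∃ I, r I ≤ 1 / z ∧ c / z ≤ r I := by
    by_cases h : z * c ≤ 1
    · refine ⟨0, ?_, ?_⟩
      · simp only [hr, pow_zero, div_one]
        rw [le_div_iff₀ hz0]
        linarith
      · simp only [hr, pow_zero, div_one]
        exact div_le_self hc0.le hz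
    · push Not at h
      obtain ⟨j, hj1, hj2⟩ := exists_nat_pow_near h.le (by norm_num : (1 : ℝ) < 2)
      refine ⟨j + 1, ?_, ?_⟩
      · simp only [hr]
        rw [div_le_div_iff₀ (by positivity) hz0]
        linarith
      · simp only [hr]
        rw [div_le_div_iff₀ hz0 (by positivity), pow_succ]
        have hc8 : c ≤ 1 / 8 := by rw [hc]; linarith
        have h2 : (2 : ℝ) ^ j * 2 ≤ z := by
          nlinarith
        exact mul_le_mul_of_nonneg_left h2 hc0.le
  have hsc : ∀ (m : Fin 3) (i : ℕ), Scale (gN X m (r i)) K (r i) := fun m i =>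
    (hF M X d (r i) (r i) m hd hdat.sep (hr0 i) le_rfl (hrd i)).1
  have key : ∀ m : Fin 3, Real.sqrt (sq (fun s x => ∑ k, G k m s x)) ≤
      D * Real.sqrt M * z ^ (17 / 15 : ℝ) := by
    intro m
    -- inner
    have k1 : Real.sqrt (sq (PG (gN X m (r I)) φ G)) ≤ A2 * Real.sqrt M * z ^ (17 / 15 : ℝ) := by
      have h1 := hI z E (r I) _ n M X Z φ G m hdat hM1 hE hG (hr0 I) (hrd I) rfl
      have h2 := num_in hz hc0 hc1 hI2 hI1 (ν := 1 + (z ^ (7 / 3 : ℝ) * r I ^ 2) ^ (3 / 5 : ℝ)) rfl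
      apply root4 (MOM2_sq_nonneg _) (by positivity) hM (by positivity)
      refine h1.trans ?_
      have h3 := mul_le_mul_of_nonneg_left h2 (show 0 ≤ C2 * (M : ℝ) ^ 2 by positivity)
      refine h3.trans (le_of_eq ?_)
      ring
    -- shells
    have k2 : ∀ i, c / z ≤ r (i + 1) → Real.sqrt (sq (PG (fun y => gN X m (r i) y -
        gN X m (r (i + 1)) y) φ G)) ≤
        A1 * Real.sqrt M * (z ^ (14 / 15 : ℝ) * r (i + 1) ^ (-(1 / 5) : ℝ)) := by
      intro i hi
      have h1 := hP z E (r (i + 1)) _ n M X Z φ G m hdat hM1 hE hG (hr0 _)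
        (by rw [hr2]; exact hrd i) rfl
      rw [hr2] at h1
      have h2 := num_sh hz hc0 hc1 hi
        (ν := 1 + (z ^ (7 / 3 : ℝ) * r (i + 1) ^ 2) ^ (3 / 5 : ℝ)) rfl
      have hrp : 0 < r (i + 1) := hr0 _
      apply root4 (MOM2_sq_nonneg _) (by positivity) hM (by positivity)
      refine h1.trans ?_
      have h3 := mul_le_mul_of_nonneg_left h2 (show 0 ≤ C1 * (M : ℝ) ^ 2 by positivity)
      refine h3.trans (le_of_eq ?_)
      ring
    -- chain
    have k3 : ∀ i, Real.sqrt (sq (PG (gN X m (r i)) φ G)) ≤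
        Real.sqrt (sq (PG (fun y => gN X m (r i) y - gN X m (r (i + 1)) y) φ G)) +
          Real.sqrt (sq (PG (gN X m (r (i + 1))) φ G)) := by
      intro i
      rw [MOM2_PG_split (hsc m i).sm (hsc m (i + 1)).sm φ G]
      have hd' := (hF M X d (r (i + 1)) (r i) m hd hdat.sep (hr0 _)
        (hanti i (i + 1) (Nat.le_succ i)) (hrd i)).2.1
      exact MOM2_tri _ _ (MOMM_memLp hd' hG.lp hG.lpG) (MOMM_memLp (hsc m (i + 1)) hG.lp hG.lpG)
    have k4 := chain _ _ k3 I
    have k5 : ∑ i ∈ Finset.range I, Real.sqrt (sq (PG (fun y => gN X m (r i) y -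
        gN X m (r (i + 1)) y) φ G)) ≤
        A1 * Real.sqrt M * (z ^ (14 / 15 : ℝ) * (r I ^ (-(1 / 5) : ℝ) * (1 / (1 - q)))) := by
      have e1 : ∀ i ∈ Finset.range I, r (i + 1) ^ (-(1 / 5) : ℝ) =
          r I ^ (-(1 / 5) : ℝ) * q ^ (I - 1 - i) := by
        intro i hi
        rw [Finset.mem_range] at hi
        have e2 : r (i + 1) = r I * 2 ^ (I - 1 - i) := by
          simp only [hr]
          have e3 : (2 : ℝ) ^ I = 2 ^ (i + 1) * 2 ^ (I - 1 - i) := by
            rw [← pow_add]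
            congr 1
            omega
          rw [e3]
          field_simp
        rw [e2, Real.mul_rpow (hr0 I).le (by positivity), hq, ← Real.rpow_natCast,
          ← Real.rpow_mul (by norm_num), ← Real.rpow_natCast, ← Real.rpow_mul (by norm_num),
          mul_comm ((I - 1 - i : ℕ) : ℝ)]
      calc _ ≤ ∑ i ∈ Finset.range I, A1 * Real.sqrt M *
            (z ^ (14 / 15 : ℝ) * (r I ^ (-(1 / 5) : ℝ) * q ^ (I - 1 - i))) := by
            apply Finset.sum_le_sum
            intro i hi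
            rw [← e1 i hi]
            apply k2 i
            rw [Finset.mem_range] at hi
            exact hI2.trans (hanti (i + 1) I hi)
        _ = A1 * Real.sqrt M * (z ^ (14 / 15 : ℝ) * (r I ^ (-(1 / 5) : ℝ) *
            ∑ i ∈ Finset.range I, q ^ (I - 1 - i))) := by
            rw [Finset.mul_sum, Finset.mul_sum, Finset.mul_sum]
        _ ≤ _ := by
            have hrI := hr0 I
            apply mul_le_mul_of_nonneg_left _ (by positivity)
            apply mul_le_mul_of_nonneg_left _ (by positivity)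
            apply mul_le_mul_of_nonneg_left _ (by positivity)
            rw [Finset.sum_range_reflect (fun i => q ^ i) I, geom_sum_eq hq1.ne,
              ← neg_div_neg_eq, neg_sub, neg_sub]
            apply div_le_div_of_nonneg_right _ hq2.le
            have := pow_pos hq0 I
            linarith
    have k6 : z ^ (14 / 15 : ℝ) * (r I ^ (-(1 / 5) : ℝ) * (1 / (1 - q))) ≤
        (c ^ (-(1 / 5) : ℝ) * (1 / (1 - q))) * z ^ (17 / 15 : ℝ) := by
      have b1 : r I ^ (-(1 / 5) : ℝ) ≤ (c / z) ^ (-(1 / 5) : ℝ) :=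
        Real.rpow_le_rpow_of_nonpos (by positivity) hI2 (by norm_num)
      have b2 : (c / z) ^ (-(1 / 5) : ℝ) = c ^ (-(1 / 5) : ℝ) * z ^ (1 / 5 : ℝ) := by
        rw [Real.div_rpow hc0.le hz0.le, Real.rpow_neg hz0.le, div_inv_eq_mul]
      rw [b2] at b1
      calc z ^ (14 / 15 : ℝ) * (r I ^ (-(1 / 5) : ℝ) * (1 / (1 - q)))
          ≤ z ^ (14 / 15 : ℝ) * ((c ^ (-(1 / 5) : ℝ) * z ^ (1 / 5 : ℝ)) * (1 / (1 - q))) := by
            apply mul_le_mul_of_nonneg_left _ (by positivity)
            exact mul_le_mul_of_nonneg_right b1 (by positivity)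
        _ = (c ^ (-(1 / 5) : ℝ) * (1 / (1 - q))) * (z ^ (14 / 15 : ℝ) * z ^ (1 / 5 : ℝ)) := by
            ring
        _ = _ := by
            rw [← Real.rpow_add hz0]
            norm_num
    have k7 := mul_le_mul_of_nonneg_left k6 (show 0 ≤ A1 * Real.sqrt M by positivity)
    -- the rest
    have k8 : Real.sqrt (sq (fun s x => (∑ k, G k m s x) - PG (gN X m c) φ G s x)) ≤
        A3 * Real.sqrt M * z ^ (17 / 15 : ℝ) := by
      have h1 := hR z E n M X Z φ G m hdat hM1 hE hG
      apply root4 (MOM2_sq_nonneg _) (by positivity) hM (by positivity)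
      refine h1.trans ?_
      have h2 : z ^ (10 / 3 : ℝ) ≤ 2 * (z ^ (17 / 15 : ℝ)) ^ 4 := by
        have h3 : z ^ (10 / 3 : ℝ) ≤ (z ^ (17 / 15 : ℝ)) ^ 4 := by
          rw [← Real.rpow_natCast, ← Real.rpow_mul hz0.le]
          apply Real.rpow_le_rpow_of_exponent_le hz
          norm_num
        have h4 : 0 ≤ (z ^ (17 / 15 : ℝ)) ^ 4 := by positivity
        linarith
      calc C3 * (M : ℝ) ^ 2 * z ^ (10 / 3 : ℝ) ≤
            C3 * (M : ℝ) ^ 2 * (2 * (z ^ (17 / 15 : ℝ)) ^ 4) :=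
            mul_le_mul_of_nonneg_left h2 (by positivity)
        _ = _ := by ring
    have hr00 : r 0 = c := by simp only [hr, pow_zero, div_one]
    have hGm : ∀ s, MemLp (fun x => ∑ k, G k m s x) 2 := fun s =>
      memLp_finsetSum _ fun k _ => hG.lpG k m s
    have hPGm : ∀ s, MemLp (PG (gN X m c) φ G s) 2 := by
      have := MOMM_memLp (hsc m 0) hG.lp hG.lpG
      rw [hr00] at this
      exact this
    have k9 : Real.sqrt (sq (fun s x => ∑ k, G k m s x)) ≤
        Real.sqrt (sq (fun s x => (∑ k, G k m s x) - PG (gN X m c) φ G s x)) +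
          Real.sqrt (sq (PG (gN X m c) φ G)) := by
      have h1 := MOM2_tri (fun s x => (∑ k, G k m s x) - PG (gN X m c) φ G s x)
        (PG (gN X m c) φ G) (fun s => (hGm s).sub (hPGm s)) hPGm
      have h2 : (fun s x => (∑ k, G k m s x) - PG (gN X m c) φ G s x + PG (gN X m c) φ G s x) =
          fun s x => ∑ k, G k m s x := by
        funext s x
        ring
      rw [h2] at h1
      exact h1
    rw [hr00] at k4
    have e9 : D * Real.sqrt M * z ^ (17 / 15 : ℝ) = A3 * Real.sqrt M * z ^ (17 / 15 : ℝ) +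
        (A1 * Real.sqrt M * ((c ^ (-(1 / 5) : ℝ) * (1 / (1 - q))) * z ^ (17 / 15 : ℝ)) +
          A2 * Real.sqrt M * z ^ (17 / 15 : ℝ)) := by
      rw [hD]
      ring
    rw [e9]
    linarith
  have hm : ∀ m : Fin 3, Helper95.PW.sq (fun s x => ∑ k, G k m s x) ≤ D ^ 2 * (M * z ^ (34 / 15 : ℝ)) := by
    intro m
    have h7 := (Real.sqrt_le_iff.mp (key m)).2
    refine h7.trans (le_of_eq ?_)
    rw [mul_pow, mul_pow, Real.sq_sqrt hM, ← Real.rpow_natCast (z ^ (17 / 15 : ℝ)),
      ← Real.rpow_mul hz0.le, mul_assoc]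
    norm_num
  unfold mom
  refine (Finset.sum_le_sum fun i _ => hm i).trans (le_of_eq ?_)
  simp only [Finset.sum_const, Finset.card_univ, Fintype.card_fin, nsmul_eq_mul]
  push_cast
  ring

end Pool.Agent.Helper76.HW
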